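import Pool.Agent.H31.CN.T4

/-!
Module UFC of cna_modules.
-/

set_option autoImplicit false

open MeasureTheory Set Filter
open scoped Real

namespace Pool.Agent.H77.CN

open Pool.Agent.H31.CN

theorem sum_SD (M : ℝ) (N : ℕ) (hN : 1 ≤ N) (hsq : Squarefree N) (g : ℕ → ℝ) :
    ∑ m ∈ SD M N, g m = ∑ n ∈ N.divisors, ∑ m ∈ (Finset.Icc 1 ⌊M⌋₊).filter
      (fun m => Squarefree m ∧ Nat.Coprime m N), g (n * m) := by
  rw [← Finset.sum_product' N.divisors _ (fun n m => g (n * m))]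
  refine Finset.sum_nbij' (fun m => (Nat.gcd m N, m / Nat.gcd m N)) (fun x => x.1 * x.2)
    ?_ ?_ ?_ ?_ ?_
  · intro m hm
    unfold SD at hm
    rw [Finset.mem_filter, Finset.mem_Icc] at hm
    obtain ⟨⟨h1, h2⟩, h3, h4⟩ := hm
    have hg : Nat.gcd m N * (m / Nat.gcd m N) = m := Nat.mul_div_cancel' (Nat.gcd_dvd_left m N)
    have hpos : 0 < m / Nat.gcd m N := by
      refine Nat.pos_of_ne_zero fun h0 => ?_
      rw [h0, mul_zero] at hg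
      omega
    have hsm := h3
    rw [← hg, Nat.squarefree_mul_iff] at hsm
    rw [Finset.mem_product, Nat.mem_divisors, Finset.mem_filter, Finset.mem_Icc]
    refine ⟨⟨Nat.gcd_dvd_right m N, by omega⟩, ⟨hpos, ?_⟩, hsm.2.2, ?_⟩
    · exact Nat.le_floor h4
    · have h5 : Nat.gcd (m / Nat.gcd m N) N ∣ Nat.gcd m N :=
        Nat.gcd_dvd_gcd_of_dvd_left _ (Dvd.intro_left _ hg)
      have h6 : Nat.gcd (m / Nat.gcd m N) N ∣ Nat.gcd (Nat.gcd m N) (m / Nat.gcd m N) :=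
        Nat.dvd_gcd h5 (Nat.gcd_dvd_left _ _)
      rw [Nat.Coprime.gcd_eq_one hsm.1] at h6
      exact Nat.dvd_one.1 h6
  · rintro ⟨n, m⟩ hx
    rw [Finset.mem_product, Nat.mem_divisors, Finset.mem_filter, Finset.mem_Icc] at hx
    obtain ⟨⟨h1, h2⟩, ⟨h3, h4⟩, h5, h6⟩ := hx
    have hn : n ≤ N := Nat.le_of_dvd (by omega) h1
    have hn0 : 0 < n := Nat.pos_of_dvd_of_pos h1 (by omega)
    have hcop : Nat.Coprime n m := (Nat.Coprime.coprime_dvd_right h1 h6).symm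
    have hgcd : Nat.gcd (n * m) N = n := by
      rw [Nat.Coprime.gcd_mul_right_cancel n h6]
      exact Nat.gcd_eq_left h1
    unfold SD
    rw [Finset.mem_filter, Finset.mem_Icc]
    refine ⟨⟨Nat.mul_pos hn0 h3, Nat.mul_le_mul hn h4⟩, ?_, ?_⟩
    · exact (Nat.squarefree_mul_iff).2 ⟨hcop, hsq.squarefree_of_dvd h1, h5⟩
    · simp only
      rw [hgcd, Nat.mul_div_cancel_left m hn0]
      exact (Nat.le_floor_iff' (by omega)).1 h4
  · intro m _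
    exact Nat.mul_div_cancel' (Nat.gcd_dvd_left m N)
  · rintro ⟨n, m⟩ hx
    rw [Finset.mem_product, Nat.mem_divisors, Finset.mem_filter, Finset.mem_Icc] at hx
    obtain ⟨⟨h1, h2⟩, ⟨h3, h4⟩, h5, h6⟩ := hx
    have hn0 : 0 < n := Nat.pos_of_dvd_of_pos h1 (by omega)
    have hgcd : Nat.gcd (n * m) N = n := by
      rw [Nat.Coprime.gcd_mul_right_cancel n h6]
      exact Nat.gcd_eq_left h1
    simp only
    rw [hgcd, Nat.mul_div_cancel_left m hn0]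
  · intro m _
    simp only
    rw [Nat.mul_div_cancel' (Nat.gcd_dvd_left m N)]

theorem Nw_mul (n₁ n₂ m₁ m₂ A : ℕ) (B C : ℤ) (e : ℕ)
    (h : Nat.Coprime (n₁ * n₂) (m₁ * m₂)) :
    Nw (n₁ * m₁) (n₂ * m₂) A B C e = Nw n₁ n₂ A B C e * Nw m₁ m₂ A B C e := by
  unfold Nw
  have h5 : n₁ * m₁ * (n₂ * m₂) = n₁ * n₂ * (m₁ * m₂) := by ring
  rw [h5, Nat.Coprime.primeFactors_mul h, Finset.prod_union (Nat.Coprime.disjoint_primeFactors h)]
  congr 1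
  · refine Finset.prod_congr rfl fun p hp => ?_
    have hpp := Nat.prime_of_mem_primeFactors hp
    have hpd := Nat.dvd_of_mem_primeFactors hp
    have hm : ¬ p ∣ m₁ * m₂ := fun hh => by
      have := Nat.dvd_gcd hpd hh
      rw [Nat.Coprime.gcd_eq_one h] at this
      exact hpp.one_lt.ne' (Nat.dvd_one.1 this)
    have hm1 : ¬ p ∣ m₁ := fun hh => hm (hh.mul_right _)
    have hm2 : ¬ p ∣ m₂ := fun hh => hm (hh.mul_left _)
    have e1 : p ∣ n₁ * m₁ ↔ p ∣ n₁ := by rw [hpp.dvd_mul]; tauto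
    have e2 : p ∣ n₂ * m₂ ↔ p ∣ n₂ := by rw [hpp.dvd_mul]; tauto
    simp only [e1, e2]
  · refine Finset.prod_congr rfl fun p hp => ?_
    have hpp := Nat.prime_of_mem_primeFactors hp
    have hpd := Nat.dvd_of_mem_primeFactors hp
    have hm : ¬ p ∣ n₁ * n₂ := fun hh => by
      have := Nat.dvd_gcd hh hpd
      rw [Nat.Coprime.gcd_eq_one h] at this
      exact hpp.one_lt.ne' (Nat.dvd_one.1 this)
    have hm1 : ¬ p ∣ n₁ := fun hh => hm (hh.mul_right _)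
    have hm2 : ¬ p ∣ n₂ := fun hh => hm (hh.mul_left _)
    have e1 : p ∣ n₁ * m₁ ↔ p ∣ m₁ := by rw [hpp.dvd_mul]; tauto
    have e2 : p ∣ n₂ * m₂ ↔ p ∣ m₂ := by rw [hpp.dvd_mul]; tauto
    simp only [e1, e2]

theorem term_eq (N Δ n₁ n₂ m₁ m₂ : ℕ) (hN : 1 ≤ N) (hg : good N Δ) (hn1 : n₁ ∣ N)
    (hn2 : n₂ ∣ N) (h3 : 1 ≤ m₁) (h4 : 1 ≤ m₂) (hc1 : Nat.Coprime m₁ N)
    (hc2 : Nat.Coprime m₂ N) :
    an N n₁ Δ * an N n₂ Δ * Uf (n₁ * m₁) (n₂ * m₂) Δ =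
      US Δ (fun Q e => Vk ((e : ℝ) ^ 2 * Q.1 /
            (((n₁ * n₂ : ℕ) : ℝ) * m₁ * m₂ * Real.sqrt Δ)) / Real.sqrt ((e : ℝ) ^ 2 * Q.1) *
            wN N n₁ n₂ e Q.1.toNat Q.2.1 Q.2.2 * Nw m₁ m₂ Q.1.toNat Q.2.1 Q.2.2 e)
            (fun Q => zf Q.1 Q.2.1 Δ) := by
  have h1 : 0 < n₁ := Nat.pos_of_dvd_of_pos hn1 (by omega)
  have h2 : 0 < n₂ := Nat.pos_of_dvd_of_pos hn2 (by omega)
  have hcop : Nat.Coprime (n₁ * n₂) (m₁ * m₂) := by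
    refine Nat.Coprime.mul_left ?_ ?_
    · exact Nat.Coprime.mul_right (Nat.Coprime.coprime_dvd_right hn1 hc1).symm
        (Nat.Coprime.coprime_dvd_right hn1 hc2).symm
    · exact Nat.Coprime.mul_right (Nat.Coprime.coprime_dvd_right hn2 hc1).symm
        (Nat.Coprime.coprime_dvd_right hn2 hc2).symm
  unfold Uf US
  rw [← tsum_mul_left]
  refine tsum_congr fun x => ?_
  obtain ⟨e, A⟩ := x
  unfold Ut
  rw [Finset.mul_sum]
  refine Finset.sum_congr rfl fun B hB => ?_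
  rw [Finset.mem_filter, Finset.mem_range] at hB
  have hA : 0 < A := by omega
  have hC : (4 * (A : ℤ) * (((B ^ 2 + Δ) / (4 * A) : ℕ) : ℤ) - (B : ℤ) ^ 2) = (Δ : ℤ) := by
    have h5 : 4 * A * ((B ^ 2 + Δ) / (4 * A)) = B ^ 2 + Δ := Nat.mul_div_cancel' hB.2
    have h6 : ((4 * A * ((B ^ 2 + Δ) / (4 * A)) : ℕ) : ℤ) = ((B ^ 2 + Δ : ℕ) : ℤ) := by rw [h5]
    rw [Nat.cast_mul, Nat.cast_mul, Nat.cast_add, Nat.cast_pow] at h6
    rw [Nat.cast_ofNat] at h6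
    rw [h6]
    ring
  have hw : wN N n₁ n₂ e A B (((B ^ 2 + Δ) / (4 * A) : ℕ) : ℤ) = an N n₁ Δ * an N n₂ Δ *
      Nw n₁ n₂ A B (((B ^ 2 + Δ) / (4 * A) : ℕ) : ℤ) e := by
    unfold wN
    rw [hC, if_pos hg]
  simp only [Int.toNat_natCast]
  rw [hw, Nw_mul n₁ n₂ m₁ m₂ A B _ e hcop]
  push_cast
  have h7 : (n₁ : ℝ) * m₁ * (n₂ * m₂) * Real.sqrt Δ = (n₁ : ℝ) * n₂ * m₁ * m₂ * Real.sqrt Δ := by
    ring
  rw [h7]
  ring

/-- UFC -/
theorem pf_UFC : T_UFC := by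
  intro P M N Δ hN h2N hsq hΔ hg
  rw [sum_SD M N hN hsq]
  refine Finset.sum_congr rfl fun n₁ hn₁ => ?_
  have hd1 := Nat.dvd_of_mem_divisors hn₁
  have hstep : ∀ m₁ ∈ (Finset.Icc 1 ⌊M⌋₊).filter (fun m => Squarefree m ∧ Nat.Coprime m N),
      ∑ m₂ ∈ SD M N, CD P M N Δ (n₁ * m₁) * CD P M N Δ m₂ * Uf (n₁ * m₁) m₂ Δ =
      ∑ n₂ ∈ N.divisors, ∑ m₂ ∈ (Finset.Icc 1 ⌊M⌋₊).filter
        (fun m => Squarefree m ∧ Nat.Coprime m N), cm P M N m₁ * cm P M N m₂ *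
          US Δ (fun Q e => Vk ((e : ℝ) ^ 2 * Q.1 /
            (((n₁ * n₂ : ℕ) : ℝ) * m₁ * m₂ * Real.sqrt Δ)) / Real.sqrt ((e : ℝ) ^ 2 * Q.1) *
            wN N n₁ n₂ e Q.1.toNat Q.2.1 Q.2.2 * Nw m₁ m₂ Q.1.toNat Q.2.1 Q.2.2 e)
            (fun Q => zf Q.1 Q.2.1 Δ) := by
    intro m₁ hm₁
    rw [Finset.mem_filter, Finset.mem_Icc] at hm₁
    rw [sum_SD M N hN hsq]
    refine Finset.sum_congr rfl fun n₂ hn₂ => Finset.sum_congr rfl fun m₂ hm₂ => ?_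
    have hd2 := Nat.dvd_of_mem_divisors hn₂
    rw [Finset.mem_filter, Finset.mem_Icc] at hm₂
    have hCD : ∀ n m : ℕ, n ∣ N → Nat.Coprime m N → CD P M N Δ (n * m) =
        an N n Δ * cm P M N m := by
      intro n m hn hm
      have hn0 : 0 < n := Nat.pos_of_dvd_of_pos hn (by omega)
      have hgcd : Nat.gcd (n * m) N = n := by
        rw [Nat.Coprime.gcd_mul_right_cancel n hm]
        exact Nat.gcd_eq_left hn
      unfold CD
      rw [hgcd, Nat.mul_div_cancel_left m hn0]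
    rw [hCD n₁ m₁ hd1 hm₁.2.2, hCD n₂ m₂ hd2 hm₂.2.2,
      ← term_eq N Δ n₁ n₂ m₁ m₂ hN hg hd1 hd2 hm₁.1.1 hm₂.1.1 hm₁.2.2 hm₂.2.2]
    ring
  rw [Finset.sum_congr rfl hstep, Finset.sum_comm]
  refine Finset.sum_congr rfl fun n₂ _ => ?_
  have hz : ∀ m, ¬ (Squarefree m ∧ Nat.Coprime m N) → cm P M N m = 0 := by
    intro m hm
    unfold cm
    by_cases h : (m : ℝ) ≤ M ∧ Nat.Coprime m N
    · rw [if_pos h]
      have hns : ¬ Squarefree m := fun h' => hm ⟨h', h.2⟩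
      unfold mr
      rw [ArithmeticFunction.moebius_eq_zero_of_not_squarefree hns]
      simp
    · rw [if_neg h]
  rw [Finset.sum_filter]
  refine Finset.sum_congr rfl fun m₁ _ => ?_
  by_cases h1 : Squarefree m₁ ∧ Nat.Coprime m₁ N
  · rw [if_pos h1, Finset.sum_filter]
    refine Finset.sum_congr rfl fun m₂ _ => ?_
    by_cases h2 : Squarefree m₂ ∧ Nat.Coprime m₂ N
    · rw [if_pos h2]
    · rw [if_neg h2, hz m₂ h2, mul_zero, zero_mul]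
  · rw [if_neg h1]
    symm
    refine Finset.sum_eq_zero fun m₂ _ => ?_
    rw [hz m₁ h1, zero_mul, zero_mul]

end Pool.Agent.H77.CN
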