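import Pool.Agent.H31.CN.T4

/-!
Module PZ1 of cna_modules.
-/

set_option autoImplicit false

open MeasureTheory Set Filter
open scoped Real

namespace Pool.Agent.H77.CN

open Pool.Agent.H31.CN

/-- the roots compatible with a vector -/
noncomputable def rts (m : ℕ) (c : ℤ) (v : ℤ × ℤ) : Finset ℕ :=
  (Finset.range m).filter (fun j : ℕ =>
    (m : ℤ) ∣ (j : ℤ) ^ 2 + j + c ∧ (m : ℤ) ∣ v.1 - j * v.2)

theorem cond_mod (a j : ℕ) (c : ℤ) (v : ℤ × ℤ) :
    ((a : ℤ) ∣ (j : ℤ) ^ 2 + j + c ∧ (a : ℤ) ∣ v.1 - j * v.2) ↔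
      ((a : ℤ) ∣ ((j % a : ℕ) : ℤ) ^ 2 + ((j % a : ℕ) : ℤ) + c ∧
        (a : ℤ) ∣ v.1 - ((j % a : ℕ) : ℤ) * v.2) := by
  have h : (j : ℤ) ≡ ((j % a : ℕ) : ℤ) [ZMOD a] := by
    rw [Int.natCast_mod]
    exact (Int.mod_modEq _ _).symm
  have h1 : (j : ℤ) ^ 2 + j + c ≡ ((j % a : ℕ) : ℤ) ^ 2 + ((j % a : ℕ) : ℤ) + c [ZMOD a] :=
    ((h.pow 2).add h).add_right c
  have h2 : v.1 - j * v.2 ≡ v.1 - ((j % a : ℕ) : ℤ) * v.2 [ZMOD a] :=
    Int.ModEq.sub_left v.1 (h.mul_right v.2)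
  unfold Int.ModEq at h1 h2
  rw [Int.dvd_iff_emod_eq_zero, Int.dvd_iff_emod_eq_zero, h1, h2, ← Int.dvd_iff_emod_eq_zero,
    ← Int.dvd_iff_emod_eq_zero]

theorem mem_rts {m : ℕ} {c : ℤ} {v : ℤ × ℤ} {j : ℕ} : j ∈ rts m c v ↔ j < m ∧
    ((m : ℤ) ∣ (j : ℤ) ^ 2 + j + c ∧ (m : ℤ) ∣ v.1 - j * v.2) := by
  unfold rts
  rw [Finset.mem_filter, Finset.mem_range]

theorem rts_mul (a b : ℕ) (ha : 0 < a) (hb : 0 < b) (hab : Nat.Coprime a b) (c : ℤ)
    (v : ℤ × ℤ) : (rts (a * b) c v).card = (rts a c v).card * (rts b c v).card := by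
  rw [← Finset.card_product]
  refine Finset.card_bij (fun j _ => (j % a, j % b)) ?_ ?_ ?_
  · intro j hj
    rw [mem_rts] at hj
    rw [Finset.mem_product, mem_rts, mem_rts]
    have h1 : (a : ℤ) ∣ ((a * b : ℕ) : ℤ) := by exact_mod_cast Dvd.intro b rfl
    have h2 : (b : ℤ) ∣ ((a * b : ℕ) : ℤ) := by exact_mod_cast Dvd.intro_left a rfl
    refine ⟨⟨Nat.mod_lt _ ha, ?_⟩, ⟨Nat.mod_lt _ hb, ?_⟩⟩
    · exact (cond_mod a j c v).1 ⟨h1.trans hj.2.1, h1.trans hj.2.2⟩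
    · exact (cond_mod b j c v).1 ⟨h2.trans hj.2.1, h2.trans hj.2.2⟩
  · intro j hj j' hj' h
    rw [mem_rts] at hj hj'
    rw [Prod.mk.injEq] at h
    have h1 : j ≡ j' [MOD a * b] := (Nat.modEq_and_modEq_iff_modEq_mul hab).1 ⟨h.1, h.2⟩
    exact h1.eq_of_lt_of_lt hj.1 hj'.1
  · rintro ⟨x, y⟩ hxy
    rw [Finset.mem_product, mem_rts, mem_rts] at hxy
    obtain ⟨⟨hx, hx'⟩, ⟨hy, hy'⟩⟩ := hxy
    obtain ⟨j, hj1, hj2⟩ := Nat.chineseRemainder hab x y
    have hz : (j % (a * b)) % a = x := by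
      rw [Nat.mod_mul_right_mod]
      have e1 : j % a = x % a := hj1
      rw [e1]
      exact Nat.mod_eq_of_lt hx
    have hw : (j % (a * b)) % b = y := by
      rw [Nat.mod_mul_left_mod]
      have e1 : j % b = y % b := hj2
      rw [e1]
      exact Nat.mod_eq_of_lt hy
    refine ⟨j % (a * b), ?_, ?_⟩
    · rw [mem_rts]
      refine ⟨Nat.mod_lt _ (Nat.mul_pos ha hb), ?_⟩
      have h1 := (cond_mod a (j % (a * b)) c v).2 (by rw [hz]; exact hx')
      have h2 := (cond_mod b (j % (a * b)) c v).2 (by rw [hw]; exact hy')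
      have h3 : IsCoprime (a : ℤ) (b : ℤ) := Nat.isCoprime_iff_coprime.2 hab
      rw [Nat.cast_mul]
      exact ⟨h3.mul_dvd h1.1 h2.1, h3.mul_dvd h1.2 h2.2⟩
    · rw [hz, hw]

theorem nu_eq (hHK3 : T_HK3) (c : ℤ) (v : ℤ × ℤ) : ∀ m : ℕ, Squarefree m →
    nu m (1, 1, c) v = (rts m c v).card := by
  have hprime : ∀ p : ℕ, p.Prime → nul p (1, 1, c) v = (rts p c v).card := by
    intro p hp
    have h1 := hHK3 p (1, 1, c) v hp
    have h2 : ¬ (p : ℤ) ∣ 1 := by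
      intro h
      have h3 : (p : ℤ) ∣ ((1 : ℕ) : ℤ) := by simpa using h
      have h4 := Int.natCast_dvd_natCast.1 h3
      exact hp.one_lt.ne' (Nat.dvd_one.1 h4)
    simp only [one_mul, h2, false_and, if_false, zero_add] at h1
    rw [← h1]
    rfl
  intro m
  induction m using Nat.strong_induction_on with
  | _ m ih =>
    intro hm
    by_cases h1 : m = 1
    · rw [h1]
      have h2 : rts 1 c v = {0} := by
        ext j
        rw [mem_rts, Finset.mem_singleton]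
        constructor
        · intro h; omega
        · intro h
          rw [h]
          exact ⟨one_pos, by simp⟩
      rw [h2, Finset.card_singleton]
      unfold nu
      rw [Nat.primeFactors_one, Finset.prod_empty]
    · have hm0 : m ≠ 0 := hm.ne_zero
      have hp := Nat.minFac_prime h1
      obtain ⟨m', hm'⟩ := Nat.minFac_dvd m
      obtain ⟨p, hpd⟩ : ∃ p, p = m.minFac := ⟨_, rfl⟩
      rw [← hpd] at hm' hp
      have hsm := hm
      rw [hm', Nat.squarefree_mul_iff] at hsm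
      have hm'0 : 0 < m' := by
        refine Nat.pos_of_ne_zero fun h0 => hm0 ?_
        rw [hm', h0, mul_zero]
      have hlt : m' < m := by
        rw [hm']
        nlinarith [hp.one_lt]
      have h2 := ih m' hlt hsm.2.2
      rw [hm', rts_mul p m' hp.pos hm'0 hsm.1, ← h2, ← hprime p hp]
      unfold nu
      rw [Nat.Coprime.primeFactors_mul hsm.1,
        Finset.prod_union (Nat.Coprime.disjoint_primeFactors hsm.1), hp.primeFactors,
        Finset.prod_singleton]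

/-- PZ1 -/
theorem pf_PZ1 (hHK3 : T_HK3) (hZTH : T_ZTH) : T_PZ1 := by
  classical
  intro D m hD hD4 hm
  have hm0 : 0 < m := Nat.pos_of_ne_zero hm.ne_zero
  have hmR : (0 : ℝ) < m := by exact_mod_cast hm0
  have hDR : (0 : ℝ) < D := by
    have : 0 < D := by omega
    exact_mod_cast this
  obtain ⟨c, hc⟩ : ∃ c : ℤ, c = ((D : ℤ) + 1) / 4 := ⟨_, rfl⟩
  rw [← hc]
  have hc4 : 4 * c = D + 1 := by omega
  have hc4R : 4 * (c : ℝ) = D + 1 := by exact_mod_cast hc4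
  obtain ⟨F, hF⟩ : ∃ F : ℤ × ℤ → ℝ, F = fun v => Vk (val (1, 1, c) v / (m * Real.sqrt D)) /
    Real.sqrt (val (1, 1, c) v) := ⟨_, rfl⟩
  obtain ⟨R, hR⟩ : ∃ R : Finset ℕ, R = (Finset.range m).filter
    (fun j : ℕ => (m : ℤ) ∣ (j : ℤ) ^ 2 + j + c) := ⟨_, rfl⟩
  rw [← hR]
  have hterm : ∀ v : ℤ × ℤ, Vk (val (1, 1, c) v / (m * Real.sqrt D)) *
        nu m (1, 1, c) v / Real.sqrt (val (1, 1, c) v) =
      ∑ j ∈ R, if (m : ℤ) ∣ v.1 - j * v.2 then F v else 0 := by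
    intro v
    rw [nu_eq hHK3 c v m hm, ← Finset.sum_filter, Finset.sum_const, nsmul_eq_mul]
    have h1 : R.filter (fun j : ℕ => (m : ℤ) ∣ v.1 - j * v.2) = rts m c v := by
      rw [hR]
      unfold rts
      rw [Finset.filter_filter]
    rw [h1, hF]
    ring
  have hval : ∀ (j : ℕ) (v : ℤ × ℤ), (val (1, 1, c) ((m : ℤ) * v.1 + j * v.2, v.2) : ℝ) =
      m * qd m (1 + 2 * j) D v := by
    intro j v
    unfold val qd
    push_cast
    field_simp
    linear_combination (v.2 : ℝ) ^ 2 * hc4R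
  have hkey : ∀ j ∈ R, Summable (fun v : ℤ × ℤ => if (m : ℤ) ∣ v.1 - j * v.2 then F v else 0) ∧
      ∑' v : ℤ × ℤ, (if (m : ℤ) ∣ v.1 - j * v.2 then F v else 0) =
        1 / Real.sqrt m * zf m (1 + 2 * j) D := by
    intro j _
    have hinj : Function.Injective
        (fun v : ℤ × ℤ => (((m : ℤ) * v.1 + j * v.2, v.2) : ℤ × ℤ)) := by
      rintro ⟨x, y⟩ ⟨x', y'⟩ h
      simp only [Prod.mk.injEq] at h
      obtain ⟨h1, h2⟩ := h
      rw [h2] at h1
      have h3 : (m : ℤ) * x = m * x' := by linarith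
      have h4 : (m : ℤ) ≠ 0 := by exact_mod_cast hm0.ne'
      rw [mul_left_cancel₀ h4 h3, h2]
    have hcomp : ∀ v : ℤ × ℤ, (if (m : ℤ) ∣ ((m : ℤ) * v.1 + j * v.2, v.2).1 -
        j * ((m : ℤ) * v.1 + j * v.2, v.2).2 then F ((m : ℤ) * v.1 + j * v.2, v.2) else 0) =
        1 / Real.sqrt m * (Vk (qd m (1 + 2 * j) D v / Real.sqrt D) /
          Real.sqrt (qd m (1 + 2 * j) D v)) := by
      intro v
      have h1 : (m : ℤ) ∣ ((m : ℤ) * v.1 + j * v.2, v.2).1 -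
        j * ((m : ℤ) * v.1 + j * v.2, v.2).2 := ⟨v.1, by simp⟩
      rw [if_pos h1, hF]
      simp only
      rw [hval, mul_div_mul_left _ _ hmR.ne', Real.sqrt_mul hmR.le]
      have h2 : Real.sqrt m ≠ 0 := (Real.sqrt_pos.2 hmR).ne'
      rw [div_mul_div_comm, one_mul]
    have hsupp : ∀ x ∉ Set.range (fun v : ℤ × ℤ => (((m : ℤ) * v.1 + j * v.2, v.2) : ℤ × ℤ)),
        (if (m : ℤ) ∣ x.1 - j * x.2 then F x else 0) = 0 := by
      intro x hx
      refine if_neg fun h => hx ?_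
      obtain ⟨t, ht⟩ := h
      exact ⟨(t, x.2), by ext <;> simp <;> linarith⟩
    have hs := (hZTH m (1 + 2 * j) D hmR hDR).1
    constructor
    · rw [← hinj.summable_iff hsupp]
      have h3 := hs.mul_left (1 / Real.sqrt m)
      refine h3.congr fun v => ?_
      exact (hcomp v).symm
    · rw [← hinj.tsum_eq (f := fun x : ℤ × ℤ => if (m : ℤ) ∣ x.1 - j * x.2 then F x else 0)]
      · unfold zf
        rw [← tsum_mul_left]
        exact tsum_congr fun v => hcomp v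
      · intro x hx
        by_contra hn
        exact hx (hsupp x hn)
  rw [tsum_congr hterm, Summable.tsum_finsetSum fun j hj => (hkey j hj).1, Finset.mul_sum]
  exact Finset.sum_congr rfl fun j hj => (hkey j hj).2

end Pool.Agent.H77.CN
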